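import Pool.Agent.H88.MC.Nef

/-!
# The nef cone conjecture spreads out

If the nef cone conjecture holds for a pair `(X/Z, Δ)` then finitely many automorphisms and finitely
many nef effective classes force it: it holds, with the same effective nef cone, for every pair with
the same space `N^1` on which these automorphisms and classes exist and whose nef cone is, near the
cone generated by these classes, not larger than that of `X`. This applies to the fibres of a family
near a general fibre, where automorphisms and classes of the general fibre extend to the fibres over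
an open subset of the base, to other boundaries, and to subgroups of the automorphism group.
-/

set_option autoImplicit false

open scoped NNReal

open Pool.Agent.E8helper40.CC

namespace Pool.Agent.Results.MP_20d318_ag.SpreadingOut

open Pool.Agent.H88.NC

/-- **The nef cone conjecture spreads out.** Let `(X/Z, Δ)` be a pair with a degree which satisfies the
nef cone conjecture. There are a finite set `F` of automorphisms of `(X/Z, Δ)` and a finite set `S` of
integral classes in the effective nef cone with the following property. Let `(X'/Z', Δ')` be another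
pair with the same space of divisor classes and the same degree such that the elements of `S` are in
the effective nef cone of `X'`, such that every element of `F` acts on the divisor classes as some
automorphism of `(X'/Z', Δ')`, and such that every nonzero element of the cone generated by `S` has a
neighbourhood in which the nef cone of `X'` is contained in the nef cone of `X`. Then the nef cone
conjecture holds for `(X'/Z', Δ')`, and the effective nef cones of `X` and `X'` are equal. -/
theorem result {n : ℕ} (X : Pair n) (hX : X.IsPair) (deg : (Fin n → ℝ) →ₗ[ℝ] ℝ)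
    (hdeg : X.IsDegree deg) (hconj : X.NefConeConjecture) :
    ∃ (F : Finset X.Aut) (S : Finset (Fin n → ℝ)), (∀ v ∈ S, IsInt v ∧ v ∈ X.Nef ∩ X.Eff) ∧
      ∀ X' : Pair n, X'.IsPair → X'.IsDegree deg →
        (∀ v ∈ S, v ∈ X'.Nef ∩ X'.Eff) →
        (∀ g ∈ F, ∃ g' : X'.Aut, X'.push g' = X.push g) →
        (∀ x ∈ cone (S : Set (Fin n → ℝ)), x ≠ 0 → ∃ U ∈ nhds x, U ∩ X'.Nef ⊆ X.Nef) →
          X'.NefConeConjecture ∧ X'.Nef ∩ X'.Eff = X.Nef ∩ X.Eff := by
  obtain ⟨F, S, hc, -⟩ := hX.toMov.exists_certificate hdeg.toMov (Pair.conj_iff.2 hconj)
  have hc1 : ∀ v ∈ S, IsInt v ∧ v ∈ X.Nef ∩ X.Eff := hc.1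
  refine ⟨F, S, hc1, ?_⟩
  intro X' hX' hdeg' hS hF hM
  have hS' : ∀ v ∈ S, v ∈ X'.toMov.Mov ∩ X'.toMov.Eff := hS
  have hF' : ∀ g ∈ F, ∃ g' : X'.toMov.PsAut, X'.toMov.push g' = X.toMov.push g := hF
  have hM' : ∀ x ∈ cone (S : Set (Fin n → ℝ)), x ≠ 0 →
    ∃ U ∈ nhds x, U ∩ X'.toMov.Mov ⊆ X.toMov.Mov := hM
  have h := hX.toMov.transfer hdeg.toMov hc hX'.toMov hdeg'.toMov hM' hS' hF'
  exact ⟨Pair.conj_iff.1 h.1, h.2⟩

end Pool.Agent.Results.MP_20d318_ag.SpreadingOut
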