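import Pool.Agent.H92.ZW.Murre

/-!
# Murre's conjectures and completions of partial matrices

Let `𝒜` be the category of Chow motives over the perfect field `k` with rational coefficients, `T l` its
Tate objects, `h(X)` the motive of `X` and `H_j` a Weil homology theory (`IsHomology`). The elements of
`CH_l(M)` are the morphisms `T l → M`. To every separated scheme `X` of finite type over `k` belongs its
weight complex with compact support `W(X)` (Gillet and Soulé, Bondarko), a complex of Chow motives up to
homotopy (`IsWeightComplex`: triangles for closed-open decompositions, affine bundles, the torus and the
point). For smooth projective `X` it is the motive `h(X)` in degree zero.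

By Jannsen, Murre's conjectures (A), (B), (C), (D) for all motives are equivalent to the statement
that every motive `M` has a Chow-Künneth decomposition `M = ⨁ M_i` such that for all motives `N` with
homology only in degree `j` there are no nonzero morphisms `N → M_i` for `i < j` and no nonzero
homologically trivial morphisms `N → M_j`. These `M` are called strong Murre motives (`Strong`). A
complex of motives is `Null` if it is contractible modulo the morphisms which factor through strong Murre
motives.

A partial matrix `Z` over `k` has prescribed elements of `k` at some places and no elements at the other
places. For a partial square matrix `Z` let `glC Z` be the smooth affine scheme of the invertible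
completions of `Z`; it is the open subscheme `det ≠ 0` of an affine space, and every coordinate of the
affine space occurs at exactly one place of the matrix. For a partial matrix `Z` of size `m × n` let
`rkC Z` be the affine scheme of the completions of `Z` of rank at most three.

**Theorem.** The following are equivalent.
1. Murre's conjectures (A), (B), (C), (D) hold for all motives over `k`.
2. The weight complexes of the schemes `glC Z` of the invertible completions of the partial square
   matrices `Z` over `k` which have, in each row and in each column, at most three places without a
   prescribed zero (`Three Z`), are null.
3. The weight complexes of the schemes `rkC Z` of the completions of rank at most three of the partial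
   matrices `Z` over `k` are null.
If `k` is `ℚ` or a finite prime field, it suffices to take in 2. (or in 3.) the partial matrices all of
whose prescribed elements are zero: these are the schemes `glS k Z` and `rkS k Z` of the invertible
matrices (of the matrices of rank at most three) with zeros at the places of the finite set `Z`; in 2.
with at most three other places in each row and in each column (`ThreeZ Z`).
Moreover, every separated scheme `X` of finite type over `k` is built from finitely many such schemes
`glC Z` (and also from finitely many schemes `rkC Z`) and affine spaces by closed-open decompositions
(two out of three), affine bundles and division by `𝔾_m`; and the motive `h(X)` of a smooth projective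
variety `X` is a strong Murre motive if the unit object is and the weight complexes of this finite list
are null. The list depends only on `X`.
-/

set_option autoImplicit false

open CategoryTheory Limits MonoidalCategory AlgebraicGeometry Pool.Agent.Y116.UV
  Pool.Agent.W5h93.EV Pool.Agent.W5h93.EX Pool.Agent.W5h93.WC Pool.Agent.H92.ZW

universe v u v' u'

namespace Pool.Agent.Results.MP_38de51_ag.MatrixCompletions

/-- **Murre's conjectures and completions of partial matrices.** See the explanations above. -/
theorem result {k : Type} [Field k] [PerfectField k] {𝒜 : Type u} [Category.{v} 𝒜] [Preadditive 𝒜]
    [HasZeroObject 𝒜] [HasBinaryBiproducts 𝒜] [IsIdempotentComplete 𝒜] [MonoidalCategory 𝒜]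
    [MonoidalPreadditive 𝒜] [RightRigidCategory 𝒜] {𝒢 : Type u'} [Category.{v'} 𝒢] [Preadditive 𝒢]
    {T : ℤ → 𝒜} (hT : IsTate T) {H : ℤ → 𝒜 ⥤ 𝒢} (hH : IsHomology T H)
    {W : Sch k → HomotopyCategory 𝒜 (ComplexShape.up ℤ)} (hW : IsWeightComplex T W)
    {Q : Sch k → Prop} (hQ : IsClass Q) {h : Sch k → 𝒜}
    (hh : ∀ X, Q X → Nonempty (W X ≅ cpx (h X))) (hG : ∀ M, Pool.Agent.W5h93.WC.Gen T h Q M) :
    MurreReduces T H W Q h ∧ Generated k :=
  ⟨murreReduces hT hH hW hQ hh hG, generated k⟩

end Pool.Agent.Results.MP_38de51_ag.MatrixCompletions
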