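import Pool.Agent.H88.VG.Fin
import Pool.Agent.H88.VG.A1
import Pool.Agent.H88.VG.A2
import Pool.Agent.H88.VG.A3
import Pool.Agent.H88.VG.A6
import Pool.Agent.H88.VG.B1
import Pool.Agent.H88.VG.B2
import Pool.Agent.H88.VG.B4
import Pool.Agent.H88.VG.C1
import Pool.Agent.H88.VG.C2
import Pool.Agent.H88.VG.D1
import Pool.Agent.H88.VG.D2
import Pool.Agent.H88.VG.E1a
import Pool.Agent.H88.VG.E1b
import Pool.Agent.H88.VG.E2
import Pool.Agent.H88.VG.E3
import Pool.Agent.H88.VG.G1
import Pool.Agent.H88.VG.G2
import Pool.Agent.H88.VG.G3
import Pool.Agent.H88.VL.W1

/-!
# The monodromy-weight conjecture for complete intersections in Grassmannians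

Let `k₀` be a finite extension of `ℚ_p`, `K` the completion of `k₀(ϖ^(1/p^∞))`, `C` the completion of an
algebraic closure of `K`, `E = K♭` and `F = C♭` the tilts. The wild inertia group being pro-`p`, the
cohomology of a smooth projective variety over `k₀` is mw pure if and only if it is so for the action of
the Galois group of `K`. The structures `Tilting` and `BaseField` (starting library,
`MP_db3ab1_ag`) describe the tilts. A closed subset, defined over `K`, of a product of Grassmannians over
`C` is given by its points, which are tuples of subspaces of `C^n` (`GSet`, `GSet.IsClosed`). `Theory` and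
`Theory.Ladic` describe its `ℓ`-adic cohomology, a graded-commutative algebra with the action `F` of a
geometric Frobenius element and the derivation `N`, the logarithm of the monodromy, by its known
properties:
* functoriality for the morphisms which forget, repeat and rename factors; Chern classes of the
  tautological bundles and the Whitney formula;
* proper descent for a morphism which is bijective over the complement of a closed set;
* the cohomology of the projective bundle of the lines in a tautological bundle is generated by the
  powers of the hyperplane class;
* tilting: let `Z` be the set of the common zeros of multihomogeneous polynomials `h_1, …, h_c` in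
  `(ℙ^(n-1))^k`, and suppose that the `h_j` can be approximated (`Approximable`): for all `ε` there are
  multihomogeneous `g_j` over `E`, of degrees `p^(M j)` times the ones of the `h_j`, such that
  `|h_j(t♯)| ≤ ε` on the normalised common zeros `t` of the `g_j`. Then there is a homomorphism from the
  cohomology of `Z` to an algebra which is mw pure in all degrees, with a trace, such that the traces of
  the monomials in the hyperplane classes are the intersection numbers with the divisors of the
  multidegrees of the `h_j`, up to a constant. (The algebra is the product of the cohomology algebras of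
  alterations of the components of a cycle on the set of the zeros of the `g_j` which represents the
  intersection of the divisors `g_j = 0`. Huber, Scholze, Deligne, de Jong; refined intersections:
  Fulton.)
The existence of the approximations is proved here.

**Theorem.** Let `h_1, …, h_c` be polynomials over `K` in the entries of a matrix `v` with `k` rows
`v_1, …, v_k` and `n` columns, and let `X` be the set of the subspaces `L` of `C^n` of dimension `k` such
that `h_j(v) = 0` for all `j` and all `v_1, …, v_k` in `L`. Suppose that the cohomology of `X` satisfies
Poincare duality in dimension `d = k (n - k) - c` (for example, that `X` is smooth and irreducible of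
this dimension).
1. If `h_j(g v) = det(g)^(a_j) h_j(v)` with `a_j > 0`, i.e. if `h_j` is a form of degree `a_j` in the
   Pluecker coordinates, so that `X` is the complete intersection of the hypersurfaces `h_j = 0` in the
   Grassmannian `G(k, n)`, the cohomology of `X` is mw pure of weight `i` in all degrees `i`.
2. The same holds if the `h_j` are multihomogeneous, the set of their zeros is closed under
   `v ↦ g v` for all matrices `g` (`Saturated`), and the intersection number of the power of degree `d`
   of `x_1 + ⋯ + x_k`, of the divisors of the multidegrees of the `h_j` and of `∏ (x_i - x_j)^2` in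
   `(ℙ^(n-1))^k` is not zero (it is, up to the sign, `k!` times the degree of `X`, by the theorem
   of Martin).

Examples for (2) (not part of the formal statement): smooth complete intersections in orthogonal and
symplectic Grassmannians (with the equations `b(v_i, v_j) = 0`); the varieties of the linear subspaces of
dimension `k - 1` of complete intersections in `ℙ^(n-1)`, if they are smooth of the expected dimension.
Scholze's theorem (complete intersections in toric varieties) does not apply to these varieties.

Proof. For `s ≤ k` let `Z_s` be the set of the tuples `(M, x_(s+1), …, x_k)` of a subspace of dimension `s`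
and of lines such that the `h_j` are zero at all `v` with `v_i ∈ M` for `i ≤ s` and `v_i ∈ x_i` for
`i > s`; so `Z_k = X`, and `Z_0` is the set of the zeros of the `h_j` in `(ℙ^(n-1))^k`. Let `Q` be the set
of the `(M, M', x, …)` with `M', x ⊂ M`, `dim M' = s`, over `Z_(s+1)`. The map `Q → Z_s` which
forgets `M` is bijective over the complement of the set `B` given by `x ⊂ M'`. The class
`E = c_s(M' ⊗ x^∨)`, a polynomial in the Chern classes, vanishes on `B`; hence for each class `v` on
`Z_(s+1)` the class `v E` on `Q` comes from a unique class `φ(v)` on `Z_s` which vanishes on `B`, and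
`φ(u) φ(v) = φ_2(u v)`. By the Whitney formula and the relation in the projective bundle, the composition
of the maps `φ_2` maps `c_1^d` to the class `(x_1 + ⋯ + x_k)^d ∏ (x_i - x_j)^2` on `Z_0`. Its trace in the
pure algebra given by tilting is the intersection number of (2). Since it is not zero, duality shows
that the cohomology of `X` is, up to a Tate twist, a direct summand of a mw pure module. For complete
intersections the intersection number is, up to a positive factor, the determinant of the matrix
`1 / (n - 1 - i - j)!`.
-/

set_option autoImplicit false

open MvPolynomial Pool.Agent.Y129.TA Pool.Agent.Y129.TB Pool.Agent.H88.VL Pool.Agent.H88.VG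

universe u v

namespace Pool.Agent.Results.MP_855f4c_ag.GrassmannianIntersections

theorem steps : Steps.{u, v} where
  a1 := A1.main
  a2 := A2.main
  a3 := A3.main_a
  a4 := A3.main_b
  a5 := A3.main_c
  a6 := A6.main
  b1 := B1.main
  b2 := B2.main
  b4a := B4.main_a
  b4b := B4.main_b
  c1 := C1.main
  c2 := C2.main_a
  c3 := C2.main_b
  d1 := D1.main
  d2 := D2.main_a
  d3 := D2.main_b
  d4 := D2.main_c
  f1 := E3.main_b
  g1 := G1.main
  g2 := G2.main
  g3 := G3.main_a
  g4 := G3.main_b
  w1b := W1.main1b

/-- **The monodromy-weight conjecture for complete intersections in Grassmannians.** See the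
explanations above. -/
theorem result {p : ℕ} [Fact p.Prime] {C F K E : Type} [Field C] [Field F] [CharP F p] [Field K]
    [Field E] [Algebra K C] [Algebra E F] [IsAlgClosed C] [IsAlgClosed F] {𝓣 : Tilting p C F}
    (hB : BaseField 𝓣 K E) {Ω : Type v} [Field Ω] [CharZero Ω] {q : ℕ} (hq : 1 < q)
    {n k c d : ℕ} (hk : 0 < k) (hkn : k ≤ n) (hd : d + c = k * (n - k)) {T : Theory.{u, v} C n Ω}
    (hT : T.Ladic K q 𝓣 E) (h : Fin c → MvPolynomial (Fin k × Fin n) K)
    (hP : (T.coh (grass C h)).IsPoincare d) :
    (∀ a : Fin c → ℕ, (∀ j, 0 < a j) →
      (∀ j (v : Fin k → Fin n → C) (g : Matrix (Fin k) (Fin k) C),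
        value C (h j) (fun i => ∑ l, g i l • v l) = g.det ^ a j * value C (h j) v) →
      ∀ i, (T.coh (grass C h)).MWPure q i) ∧
    (∀ a : Fin c → Fin k → ℕ, (∀ j, MultiHom (h j) (a j)) → Saturated C h →
      inter n a (weyl k d) ≠ 0 → ∀ i, (T.coh (grass C h)).MWPure q i) := by
  have W := steps.{u, v}
  have hn : 0 < n := lt_of_lt_of_le hk hkn
  have e : d + k * (k - 1) + c = k * (n - 1) := by
    obtain ⟨m, rfl⟩ := Nat.exists_eq_add_of_le hkn
    obtain ⟨k, rfl⟩ := Nat.exists_eq_succ_of_ne_zero hk.ne'
    have e1 : k.succ + m - k.succ = m := by omega
    have e2 : k.succ + m - 1 = k + m := by omega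
    rw [e1] at hd
    rw [e2, Nat.succ_sub_one, mul_add, ← hd]
    ring
  refine ⟨fun a ha hh i => ?_, fun a hh sat hI i => main_of W hB hq hT hn hh sat e hI hP i⟩
  have hinf : Infinite C := IsAlgClosed.instInfinite
  obtain ⟨h1, h2⟩ := E2.main C K k n c h a ha hk hh
  refine main_of W hB hq hT hn h1 h2 e ?_ hP i
  rw [E3.main_a k n c d a]
  refine mul_ne_zero (Finset.prod_ne_zero_iff.2 fun j _ => Int.natCast_ne_zero.2 (ha j).ne') ?_
  intro h0
  have h3 := E1a.main k n (d + c) hkn hd
  rw [h0, Int.cast_zero] at h3
  refine mul_ne_zero (mul_ne_zero ?_ ?_) (E1b.main k n hkn) h3.symm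
  · exact Nat.cast_ne_zero.2 (Nat.factorial_ne_zero _)
  · exact Nat.cast_ne_zero.2 (Nat.factorial_ne_zero _)

end Pool.Agent.Results.MP_855f4c_ag.GrassmannianIntersections
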